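import Pool.Agent.Helper4.T7.StD

/-!
# Project T7, module LIFP: lifting solutions of the relations to the integers
-/

set_option autoImplicit false

namespace Pool.Agent.Helper40.T7

open Pool.Agent.Helper14.W5 (tr5 Fn5 S5Trm)
open Pool.Agent.Helper4.T7

private abbrev Pt (r s : ℕ) : Type := ZMod (5 ^ r) × ZMod (5 ^ s)

private def mu {r s : ℕ} (a b c d : ℤ) (p : Pt r s) : Pt r s :=
  tr5 a b c d (fun x y => ((x, y) : Pt r s)) p.1 p.2

private theorem mu_mul (hTrm : S5Trm) {r s : ℕ} {a b c d a' b' c' d' : ℤ} (h1 : ¬ 5 ∣ a)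
    (h2 : ¬ 5 ∣ d) (h3 : ¬ 5 ∣ a') (h4 : ¬ 5 ∣ d') (p : Pt r s) :
    mu a' b' c' d' (mu a b c d p) =
      mu (a * a' + 5 * b * c') (a * b' + b * d') (c * a' + d * c') (5 * c * b' + d * d') p := by
  have h := congrFun (congrFun ((hTrm (Pt r s) r s (fun x y => (x, y))).1 a b c d a' b' c' d'
    h1 h2 h3 h4) p.1) p.2
  exact h

private theorem mu_one (hTrm : S5Trm) {r s : ℕ} (p : Pt r s) : mu 1 0 0 1 p = p := by
  have h := congrFun (congrFun (hTrm (Pt r s) r s (fun x y => (x, y))).2.1 p.1) p.2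
  exact h

private theorem mu_scl (hTrm : S5Trm) {r s : ℕ} (k a b c d : ℤ) (hk : ¬ 5 ∣ k) (ha : ¬ 5 ∣ a)
    (hd : ¬ 5 ∣ d) (p : Pt r s) : mu (k * a) (k * b) (k * c) (k * d) p = mu a b c d p := by
  have h := congrFun (congrFun ((hTrm (Pt r s) r s (fun x y => (x, y))).2.2 k a b c d
    hk ha hd) p.1) p.2
  exact h

private theorem mu_scl1 (hTrm : S5Trm) {r s : ℕ} (k : ℤ) (hk : ¬ 5 ∣ k) (p : Pt r s) :
    mu k 0 0 k p = p := by
  have h := mu_scl hTrm k 1 0 0 1 hk (by norm_num) (by norm_num) p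
  rw [mul_one, mul_zero] at h
  rw [h, mu_one hTrm]

private theorem mu_inv (hTrm : S5Trm) {r s : ℕ} {a b c d : ℤ} (h1 : ¬ 5 ∣ a) (h2 : ¬ 5 ∣ d)
    (h : ¬ 5 ∣ a * d - 5 * b * c) (p : Pt r s) : mu d (-b) (-c) a (mu a b c d p) = p := by
  rw [mu_mul hTrm h1 h2 h2 h1]
  have e1 : a * d + 5 * b * -c = a * d - 5 * b * c := by ring
  have e2 : a * -b + b * a = 0 := by ring
  have e3 : c * d + d * -c = 0 := by ring
  have e4 : 5 * c * -b + d * a = a * d - 5 * b * c := by ring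
  rw [e1, e2, e3, e4, mu_scl1 hTrm _ h]

private theorem mu_bij (hTrm : S5Trm) {r s : ℕ} {a b c d : ℤ} (h1 : ¬ 5 ∣ a) (h2 : ¬ 5 ∣ d)
    (h : ¬ 5 ∣ a * d - 5 * b * c) :
    Function.Bijective (mu a b c d : Pt r s → Pt r s) := by
  refine Function.bijective_iff_has_inverse.2 ⟨mu d (-b) (-c) a, fun p => mu_inv hTrm h1 h2 h p,
    fun p => ?_⟩
  have := mu_inv hTrm (r := r) (s := s) (a := d) (b := -b) (c := -c) (d := a) h2 h1
    (by intro h'; apply h; have e : a * d - 5 * b * c = d * a - 5 * -b * -c := by ring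
        rw [e]; exact h') p
  rw [neg_neg, neg_neg] at this
  exact this

private instance fin_pt (r s : ℕ) : Fintype (Pt r s) := by
  have : NeZero (5 ^ r) := ⟨by positivity⟩
  have : NeZero (5 ^ s) := ⟨by positivity⟩
  infer_instance

private def mT {r s : ℕ} : Pt r s → Pt r s := mu 1 1 0 1
private def m1 {r s : ℕ} : Pt r s → Pt r s := mu 14 (-3) 7 (-7)
private def m2 {r s : ℕ} : Pt r s → Pt r s := mu 19 (-6) 7 (-11)
private def m3 {r s : ℕ} : Pt r s → Pt r s := mu 24 (-11) 7 (-16)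
private def m4 {r s : ℕ} : Pt r s → Pt r s := mu 28 (-17) 7 (-21)
private def nT {r s : ℕ} : Pt r s → Pt r s := mu 1 (-1) 0 1
private def n1 {r s : ℕ} : Pt r s → Pt r s := mu (-7) 3 (-7) 14
private def n2 {r s : ℕ} : Pt r s → Pt r s := mu (-11) 6 (-7) 19
private def n3 {r s : ℕ} : Pt r s → Pt r s := mu (-16) 11 (-7) 24
private def n4 {r s : ℕ} : Pt r s → Pt r s := mu (-21) 17 (-7) 28
private def mB {r s : ℕ} : Pt r s → Pt r s := mu 1 0 (-7) 1

private theorem bT (hTrm : S5Trm) {r s : ℕ} : Function.Bijective (mT : Pt r s → Pt r s) :=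
  mu_bij hTrm (by norm_num) (by norm_num) (by norm_num)
private theorem b1 (hTrm : S5Trm) {r s : ℕ} : Function.Bijective (m1 : Pt r s → Pt r s) :=
  mu_bij hTrm (by norm_num) (by norm_num) (by norm_num)
private theorem b2 (hTrm : S5Trm) {r s : ℕ} : Function.Bijective (m2 : Pt r s → Pt r s) :=
  mu_bij hTrm (by norm_num) (by norm_num) (by norm_num)
private theorem b3 (hTrm : S5Trm) {r s : ℕ} : Function.Bijective (m3 : Pt r s → Pt r s) :=
  mu_bij hTrm (by norm_num) (by norm_num) (by norm_num)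
private theorem b4 (hTrm : S5Trm) {r s : ℕ} : Function.Bijective (m4 : Pt r s → Pt r s) :=
  mu_bij hTrm (by norm_num) (by norm_num) (by norm_num)

private theorem iT (hTrm : S5Trm) {r s : ℕ} (p : Pt r s) : mT (nT p) = p := by
  have h := mu_inv hTrm (a := 1) (b := -1) (c := 0) (d := 1) (by norm_num) (by norm_num)
    (by norm_num) p
  unfold mT nT
  norm_num at h ⊢
  exact h

private theorem i1 (hTrm : S5Trm) {r s : ℕ} (p : Pt r s) : m1 (n1 p) = p := by
  have h := mu_inv hTrm (a := -7) (b := 3) (c := -7) (d := 14) (by norm_num) (by norm_num)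
    (by norm_num) p
  unfold m1 n1
  norm_num at h ⊢
  exact h

private theorem i2 (hTrm : S5Trm) {r s : ℕ} (p : Pt r s) : m2 (n2 p) = p := by
  have h := mu_inv hTrm (a := -11) (b := 6) (c := -7) (d := 19) (by norm_num) (by norm_num)
    (by norm_num) p
  unfold m2 n2
  norm_num at h ⊢
  exact h

private theorem i3 (hTrm : S5Trm) {r s : ℕ} (p : Pt r s) : m3 (n3 p) = p := by
  have h := mu_inv hTrm (a := -16) (b := 11) (c := -7) (d := 24) (by norm_num) (by norm_num)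
    (by norm_num) p
  unfold m3 n3
  norm_num at h ⊢
  exact h

private theorem i4 (hTrm : S5Trm) {r s : ℕ} (p : Pt r s) : m4 (n4 p) = p := by
  have h := mu_inv hTrm (a := -21) (b := 17) (c := -7) (d := 28) (by norm_num) (by norm_num)
    (by norm_num) p
  unfold m4 n4
  norm_num at h ⊢
  exact h

private theorem mBM (hTrm : S5Trm) {r s : ℕ} (p : Pt r s) :
    m1 (m3 (n4 (n3 (n2 (n1 (m2 (m4 (nT p)))))))) = mB p := by
  have h := mu_scl hTrm 49 1 0 (-7) 1 (by norm_num) (by norm_num) (by norm_num) p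
  unfold m1 m3 n4 n3 n2 n1 m2 m4 nT mB
  rw [← h]
  have km4 : mu 28 (-17) 7 (-21) (mu 1 (-1) 0 1 p) = mu (-7) 4 7 (-21) p := by
    rw [mu_mul hTrm (by norm_num) (by norm_num) (by norm_num) (by norm_num)]
    norm_num
  rw [km4]
  have km2 : mu 19 (-6) 7 (-11) (mu (-7) 4 7 (-21) p) = mu 7 (-2) (-14) 21 p := by
    rw [mu_mul hTrm (by norm_num) (by norm_num) (by norm_num) (by norm_num)]
    norm_num
  rw [km2]
  have kn1 : mu (-7) 3 (-7) 14 (mu 7 (-2) (-14) 21 p) = mu 21 (-7) (-49) 84 p := by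
    rw [mu_mul hTrm (by norm_num) (by norm_num) (by norm_num) (by norm_num)]
    norm_num
  rw [kn1]
  have kn2 : mu (-11) 6 (-7) 19 (mu 21 (-7) (-49) 84 p) = mu 14 (-7) (-49) 126 p := by
    rw [mu_mul hTrm (by norm_num) (by norm_num) (by norm_num) (by norm_num)]
    norm_num
  rw [kn2]
  have kn3 : mu (-16) 11 (-7) 24 (mu 14 (-7) (-49) 126 p) = mu 21 (-14) (-98) 329 p := by
    rw [mu_mul hTrm (by norm_num) (by norm_num) (by norm_num) (by norm_num)]
    norm_num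
  rw [kn3]
  have kn4 : mu (-21) 17 (-7) 28 (mu 21 (-14) (-98) 329 p) = mu 49 (-35) (-245) 882 p := by
    rw [mu_mul hTrm (by norm_num) (by norm_num) (by norm_num) (by norm_num)]
    norm_num
  rw [kn4]
  have km3 : mu 24 (-11) 7 (-16) (mu 49 (-35) (-245) 882 p) = mu (-49) 21 294 (-637) p := by
    rw [mu_mul hTrm (by norm_num) (by norm_num) (by norm_num) (by norm_num)]
    norm_num
  rw [km3]
  have km1 : mu 14 (-3) 7 (-7) (mu (-49) 21 294 (-637) p) = mu 49 0 (-343) 49 p := by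
    rw [mu_mul hTrm (by norm_num) (by norm_num) (by norm_num) (by norm_num)]
    norm_num
  rw [km1]
  norm_num

/-- the defect of the relation -/
private def cob (r s : ℕ) : (Fin 5 → Pt r s → ℤ) →+ (Pt r s → ℤ) where
  toFun H := fun p => H 0 p - H 0 (mT p) - (H 1 p - H 1 (m1 p)) - (H 2 p - H 2 (m2 p)) -
    (H 3 p - H 3 (m3 p)) - (H 4 p - H 4 (m4 p))
  map_zero' := by funext p; simp
  map_add' H K := by funext p; simp only [Pi.add_apply]; ring

private noncomputable def dl {r s : ℕ} (p : Pt r s) : Pt r s → ℤ := by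
  classical exact Pi.single p 1

private theorem dl_app {r s : ℕ} (p q : Pt r s) [Decidable (q = p)] :
    dl p q = if q = p then 1 else 0 := by
  classical
  unfold dl
  rw [Pi.single_apply]
  congr

private def Eqp {r s : ℕ} (p q : Pt r s) : Prop := dl p - dl q ∈ (cob r s).range

private theorem Eqp.rfl' {r s : ℕ} (p : Pt r s) : Eqp p p := by
  unfold Eqp; rw [sub_self]; exact zero_mem _

private theorem Eqp.sym {r s : ℕ} {p q : Pt r s} (h : Eqp p q) : Eqp q p := by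
  unfold Eqp at *; have := neg_mem h; rwa [neg_sub] at this

private theorem Eqp.trs {r s : ℕ} {p q t : Pt r s} (h : Eqp p q) (h' : Eqp q t) : Eqp p t := by
  unfold Eqp at *; have := add_mem h h'; rwa [sub_add_sub_cancel] at this

private theorem dl_inj {r s : ℕ} {f : Pt r s → Pt r s} (hf : Function.Injective f) (p q : Pt r s) :
    dl (f p) (f q) = dl p q := by
  classical
  rw [dl_app, dl_app]
  simp [hf.eq_iff]

private theorem eT (hTrm : S5Trm) {r s : ℕ} (p : Pt r s) : Eqp (mT p) p := by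
  refine ⟨![dl (mT p), 0, 0, 0, 0], ?_⟩
  funext q
  simp [cob, dl_inj (bT hTrm).1 p q]

private theorem e1 (hTrm : S5Trm) {r s : ℕ} (p : Pt r s) : Eqp (m1 p) p := by
  refine ⟨![0, -dl (m1 p), 0, 0, 0], ?_⟩
  funext q
  simp [cob, dl_inj (b1 hTrm).1 p q]
  ring

private theorem e2 (hTrm : S5Trm) {r s : ℕ} (p : Pt r s) : Eqp (m2 p) p := by
  refine ⟨![0, 0, -dl (m2 p), 0, 0], ?_⟩
  funext q
  simp [cob, dl_inj (b2 hTrm).1 p q]
  ring

private theorem e3 (hTrm : S5Trm) {r s : ℕ} (p : Pt r s) : Eqp (m3 p) p := by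
  refine ⟨![0, 0, 0, -dl (m3 p), 0], ?_⟩
  funext q
  simp [cob, dl_inj (b3 hTrm).1 p q]
  ring

private theorem e4 (hTrm : S5Trm) {r s : ℕ} (p : Pt r s) : Eqp (m4 p) p := by
  refine ⟨![0, 0, 0, 0, -dl (m4 p)], ?_⟩
  funext q
  simp [cob, dl_inj (b4 hTrm).1 p q]
  ring

private theorem fT (hTrm : S5Trm) {r s : ℕ} (p : Pt r s) : Eqp (nT p) p := by
  have h := eT hTrm (nT p)
  rw [iT hTrm] at h
  exact h.sym

private theorem f1 (hTrm : S5Trm) {r s : ℕ} (p : Pt r s) : Eqp (n1 p) p := by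
  have h := e1 hTrm (n1 p)
  rw [i1 hTrm] at h
  exact h.sym

private theorem f2 (hTrm : S5Trm) {r s : ℕ} (p : Pt r s) : Eqp (n2 p) p := by
  have h := e2 hTrm (n2 p)
  rw [i2 hTrm] at h
  exact h.sym

private theorem f3 (hTrm : S5Trm) {r s : ℕ} (p : Pt r s) : Eqp (n3 p) p := by
  have h := e3 hTrm (n3 p)
  rw [i3 hTrm] at h
  exact h.sym

private theorem f4 (hTrm : S5Trm) {r s : ℕ} (p : Pt r s) : Eqp (n4 p) p := by
  have h := e4 hTrm (n4 p)
  rw [i4 hTrm] at h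
  exact h.sym

private theorem eB (hTrm : S5Trm) {r s : ℕ} (p : Pt r s) : Eqp (mB p) p := by
  rw [← mBM hTrm p]
  exact (e1 hTrm _).trs ((e3 hTrm _).trs ((f4 hTrm _).trs ((f3 hTrm _).trs ((f2 hTrm _).trs
    ((f1 hTrm _).trs ((e2 hTrm _).trs ((e4 hTrm _).trs (fT hTrm p))))))))

private theorem eqp_y0 (hTrm : S5Trm) {r s : ℕ} : ∀ (n : ℕ),
    Eqp ((0, ((7 * n : ℕ) : ZMod (5 ^ s))) : Pt r s) (0, 0) := by
  intro n
  induction n with
  | zero => rw [mul_zero, Nat.cast_zero]; exact Eqp.rfl' _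
  | succ n ih =>
    have h := eB hTrm ((0, ((7 * (n + 1) : ℕ) : ZMod (5 ^ s))) : Pt r s)
    have e : mB ((0, ((7 * (n + 1) : ℕ) : ZMod (5 ^ s))) : Pt r s) =
        (0, ((7 * n : ℕ) : ZMod (5 ^ s))) := by
      have h1 : ((1 : ZMod (5 ^ s)))⁻¹ = 1 := ZMod.inv_eq_of_mul_eq_one _ _ _ (by ring)
      simp [mB, mu, tr5, h1]
      ring
    rw [e] at h
    exact h.sym.trs ih

private theorem eqp_y (hTrm : S5Trm) {r s : ℕ} (y : ZMod (5 ^ s)) :
    Eqp ((0, y) : Pt r s) (0, 0) := by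
  have : NeZero (5 ^ s) := ⟨by positivity⟩
  have hu : IsUnit ((7 : ℕ) : ZMod (5 ^ s)) := by
    rw [ZMod.isUnit_iff_coprime]
    exact Nat.Coprime.pow_right s (by norm_num)
  obtain ⟨u, hu⟩ := hu
  have h := eqp_y0 hTrm (r := r) (s := s) (((u⁻¹ : (ZMod (5 ^ s))ˣ) : ZMod (5 ^ s)) * y).val
  have e : ((7 * (((u⁻¹ : (ZMod (5 ^ s))ˣ) : ZMod (5 ^ s)) * y).val : ℕ) : ZMod (5 ^ s)) = y := by
    rw [Nat.cast_mul, ZMod.natCast_zmod_val, ← hu, ← mul_assoc, Units.mul_inv, one_mul]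
  rw [e] at h
  exact h

private theorem eqp_x (hTrm : S5Trm) {r s : ℕ} : ∀ (n : ℕ) (x : ZMod (5 ^ r)) (y : ZMod (5 ^ s)),
    x + n = 0 → Eqp ((x, y) : Pt r s) (0, 0) := by
  intro n
  induction n with
  | zero =>
    intro x y h
    rw [Nat.cast_zero, add_zero] at h
    subst h
    exact eqp_y hTrm (r := r) (s := s) y
  | succ n ih =>
    intro x y h
    have h1 := eT hTrm ((x, y) : Pt r s)
    refine h1.sym.trs ?_
    have h2 : (mT ((x, y) : Pt r s)).1 = x + 1 := by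
      have h1 : ((1 : ZMod (5 ^ r)))⁻¹ = 1 := ZMod.inv_eq_of_mul_eq_one _ _ _ (by ring)
      simp [mT, mu, tr5, h1, add_comm]
    have h3 : mT ((x, y) : Pt r s) = (x + 1, (mT ((x, y) : Pt r s)).2) := by
      rw [← h2]
    rw [h3]
    apply ih
    rw [← h]
    push_cast
    ring

private theorem eqp_all (hTrm : S5Trm) {r s : ℕ} (p : Pt r s) : Eqp p (0, 0) := by
  have : NeZero (5 ^ r) := ⟨by positivity⟩
  exact eqp_x hTrm (-p.1).val p.1 p.2 (by rw [ZMod.natCast_zmod_val]; ring)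

private theorem mem_of_sum (hTrm : S5Trm) {r s : ℕ} (E : Pt r s → ℤ) (hE : ∑ p, E p = 0) :
    E ∈ (cob r s).range := by
  classical
  have h1 : E = ∑ p, E p • (dl p - dl (0, 0)) := by
    have h2 : ∑ p, E p • (dl p - dl ((0, 0) : Pt r s)) =
        ∑ p, E p • dl p - (∑ p, E p) • dl ((0, 0) : Pt r s) := by
      rw [Finset.sum_smul, ← Finset.sum_sub_distrib]
      exact Finset.sum_congr rfl fun p _ => smul_sub _ _ _
    rw [h2, hE, zero_smul, sub_zero]
    funext q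
    rw [Finset.sum_apply]
    simp [dl_app]
  rw [h1]
  exact sum_mem fun p _ => zsmul_mem (eqp_all hTrm p) _

private theorem sum_cob (hTrm : S5Trm) {r s : ℕ} (H : Fin 5 → Pt r s → ℤ) :
    ∑ p, cob r s H p = 0 := by
  have hT := (bT hTrm (r := r) (s := s)).sum_comp (H 0)
  have h1 := (b1 hTrm (r := r) (s := s)).sum_comp (H 1)
  have h2 := (b2 hTrm (r := r) (s := s)).sum_comp (H 2)
  have h3 := (b3 hTrm (r := r) (s := s)).sum_comp (H 3)
  have h4 := (b4 hTrm (r := r) (s := s)).sum_comp (H 4)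
  show ∑ p, (H 0 p - H 0 (mT p) - (H 1 p - H 1 (m1 p)) - (H 2 p - H 2 (m2 p)) -
    (H 3 p - H 3 (m3 p)) - (H 4 p - H 4 (m4 p))) = 0
  simp only [Finset.sum_sub_distrib]
  rw [hT, h1, h2, h3, h4]
  ring

theorem hLifp (ht : S5Trm) : TLifp := by
  intro r s f hf
  let L : Fin 5 → Pt r s → ℤ := fun i p => ((f i p.1 p.2).val : ℤ)
  have hL : ∀ i p, ((L i p : ℤ) : ZMod 5) = f i p.1 p.2 := by
    intro i p
    show ((((f i p.1 p.2).val : ℤ)) : ZMod 5) = _
    push_cast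
    exact ZMod.natCast_zmod_val _
  have h5 : (5 : ZMod 5) = 0 := by decide
  have hdv : ∀ p, (5 : ℤ) ∣ cob r s L p := by
    intro p
    apply (ZMod.intCast_zmod_eq_zero_iff_dvd _ 5).1
    show ((L 0 p - L 0 (mT p) - (L 1 p - L 1 (m1 p)) - (L 2 p - L 2 (m2 p)) -
      (L 3 p - L 3 (m3 p)) - (L 4 p - L 4 (m4 p)) : ℤ) : ZMod 5) = 0
    push_cast
    simp only [hL]
    exact hf p.1 p.2
  choose D hD using hdv
  have hsum : ∑ p, D p = 0 := by
    have h := sum_cob ht L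
    rw [Finset.sum_congr rfl fun p _ => hD p, ← Finset.mul_sum] at h
    omega
  obtain ⟨H, hH⟩ := mem_of_sum ht D hsum
  let F : Fin 5 → Pt r s → ℤ := fun i p => L i p - 5 * H i p
  have hF : ∀ p, F 0 p - F 0 (mT p) - (F 1 p - F 1 (m1 p)) - (F 2 p - F 2 (m2 p)) -
      (F 3 p - F 3 (m3 p)) - (F 4 p - F 4 (m4 p)) = 0 := by
    intro p
    have h1 := hD p
    have h2 := congrFun hH p
    have e1 : cob r s L p = L 0 p - L 0 (mT p) - (L 1 p - L 1 (m1 p)) - (L 2 p - L 2 (m2 p)) -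
      (L 3 p - L 3 (m3 p)) - (L 4 p - L 4 (m4 p)) := rfl
    have e2 : cob r s H p = H 0 p - H 0 (mT p) - (H 1 p - H 1 (m1 p)) - (H 2 p - H 2 (m2 p)) -
      (H 3 p - H 3 (m3 p)) - (H 4 p - H 4 (m4 p)) := rfl
    rw [e1] at h1
    rw [e2] at h2
    simp only [F]
    linear_combination h1 - 5 * h2
  refine ⟨fun i x y => F i (x, y), fun x y => hF (x, y), fun i x y => ?_⟩
  show ((L i (x, y) - 5 * H i (x, y) : ℤ) : ZMod 5) = f i x y
  push_cast
  rw [hL, h5, zero_mul, sub_zero]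

end Pool.Agent.Helper40.T7
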